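import Pool.Agent.Lib.MP_a55e6f_al.Uni.Interfaces

/-!
# MP_a55e6f_al, module FL: the free Lie algebra embeds in the free algebra (char 0), by the
Dynkin operator. (helper86)
-/

set_option autoImplicit false

universe u

attribute [local instance 100] LieRing.ofAssociativeRing

namespace Pool.Agent.A55u.H86

section FL
variable (k S : Type u) [Field k]

theorem lieSpan_of : LieSubalgebra.lieSpan k (FreeLieAlgebra k S)
    (Set.range (FreeLieAlgebra.of k : S → FreeLieAlgebra k S)) = ⊤ := by
  set K := LieSubalgebra.lieSpan k (FreeLieAlgebra k S)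
    (Set.range (FreeLieAlgebra.of k : S → FreeLieAlgebra k S)) with hK
  let g : FreeLieAlgebra k S →ₗ⁅k⁆ K := FreeLieAlgebra.lift k
    (fun s => (⟨FreeLieAlgebra.of k s, LieSubalgebra.subset_lieSpan ⟨s, rfl⟩⟩ : K))
  have h : K.incl.comp g = LieHom.id := FreeLieAlgebra.hom_ext (by intro x; simp [g])
  rw [eq_top_iff]
  intro x _
  have hx : K.incl.comp g x = x := by rw [h]; rfl
  rw [← hx]
  exact (g x).2

/-- a Lie subalgebra containing the generators is everything -/
theorem mem_of_gen (K : LieSubalgebra k (FreeLieAlgebra k S))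
    (h : ∀ s, FreeLieAlgebra.of k s ∈ K) (x : FreeLieAlgebra k S) : x ∈ K := by
  have h1 : LieSubalgebra.lieSpan k (FreeLieAlgebra k S)
      (Set.range (FreeLieAlgebra.of k : S → FreeLieAlgebra k S)) ≤ K := by
    rw [LieSubalgebra.lieSpan_le]
    rintro _ ⟨s, rfl⟩
    exact h s
  have h2 : x ∈ LieSubalgebra.lieSpan k (FreeLieAlgebra k S)
      (Set.range (FreeLieAlgebra.of k : S → FreeLieAlgebra k S)) := by
    rw [lieSpan_of]; trivial
  exact h1 h2

variable {k S}

/-- the action of a letter on `F × k` -/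
noncomputable def opr (s : S) : Module.End k (FreeLieAlgebra k S × k) :=
  (LinearMap.inl k (FreeLieAlgebra k S) k) ∘ₗ
    ((LieAlgebra.ad k (FreeLieAlgebra k S) (FreeLieAlgebra.of k s)) ∘ₗ
        (LinearMap.fst k (FreeLieAlgebra k S) k)
      + (LinearMap.snd k (FreeLieAlgebra k S) k).smulRight (FreeLieAlgebra.of k s))

theorem opr_apply (s : S) (f : FreeLieAlgebra k S) (c : k) :
    opr s (f, c) = (⁅FreeLieAlgebra.of k s, f⁆ + c • FreeLieAlgebra.of k s, 0) := by
  simp [opr]

/-- the action of the free algebra on `F × k` -/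
noncomputable def rho : FA k S →ₐ[k] Module.End k (FreeLieAlgebra k S × k) := ev opr

/-- the embedding -/
noncomputable def ph : FreeLieAlgebra k S →ₗ⁅k⁆ FA k S := FreeLieAlgebra.lift k (letter k)

theorem ph_of (s : S) : ph (FreeLieAlgebra.of k s) = letter k s := by
  simp [ph]

theorem rho_ph_of (s : S) (v : FreeLieAlgebra k S × k) :
    rho (ph (FreeLieAlgebra.of k s)) v = opr s v := by
  rw [ph_of, rho, ev_letter]

theorem rho_ph_lie (x y : FreeLieAlgebra k S) (v : FreeLieAlgebra k S × k) :
    rho (ph ⁅x, y⁆) v = rho (ph x) (rho (ph y) v) - rho (ph y) (rho (ph x) v) := by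
  rw [LieHom.map_lie, LieRing.of_associative_ring_bracket, map_sub, map_mul, map_mul]
  rfl

variable (k S) in
/-- the auxiliary Lie subalgebra of module FL -/
noncomputable def auxP : LieSubalgebra k (FreeLieAlgebra k S) where
  carrier := {x | (∀ f, rho (ph x) (f, (0 : k)) = (⁅x, f⁆, 0)) ∧
    (rho (ph x) ((0 : FreeLieAlgebra k S), (1 : k))).2 = 0}
  add_mem' := by
    rintro x y ⟨hx, hx'⟩ ⟨hy, hy'⟩
    refine ⟨fun f => ?_, ?_⟩
    · rw [map_add, map_add, LinearMap.add_apply, hx, hy, add_lie]
      simp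
    · rw [map_add, map_add, LinearMap.add_apply, Prod.snd_add, hx', hy', add_zero]
  zero_mem' := by
    refine ⟨fun f => ?_, ?_⟩
    · rw [map_zero, map_zero, LinearMap.zero_apply, zero_lie]; rfl
    · rw [map_zero, map_zero, LinearMap.zero_apply]; rfl
  smul_mem' := by
    rintro c x ⟨hx, hx'⟩
    refine ⟨fun f => ?_, ?_⟩
    · rw [map_smul, map_smul, LinearMap.smul_apply, hx, smul_lie]
      simp
    · rw [map_smul, map_smul, LinearMap.smul_apply, Prod.smul_snd, hx', smul_zero]
  lie_mem' := by
    rintro x y ⟨hx, hx'⟩ ⟨hy, hy'⟩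
    refine ⟨fun f => ?_, ?_⟩
    · rw [rho_ph_lie, hx, hy, hx, hy]
      rw [lie_lie]
      simp
    · have h1 : rho (ph y) ((0 : FreeLieAlgebra k S), (1 : k))
          = ((rho (ph y) ((0 : FreeLieAlgebra k S), (1 : k))).1, 0) := Prod.ext rfl hy'
      have h2 : rho (ph x) ((0 : FreeLieAlgebra k S), (1 : k))
          = ((rho (ph x) ((0 : FreeLieAlgebra k S), (1 : k))).1, 0) := Prod.ext rfl hx'
      rw [rho_ph_lie, h1, h2, hx, hy]
      simp

theorem auxP_mem (x : FreeLieAlgebra k S) : x ∈ auxP k S := by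
  refine mem_of_gen k S _ (fun s => ?_) x
  refine ⟨fun f => ?_, ?_⟩
  · rw [rho_ph_of, opr_apply]; simp
  · rw [rho_ph_of, opr_apply]

variable (k S) in
/-- the Dynkin operator -/
noncomputable def dyn : Module.End k (FreeLieAlgebra k S) where
  toFun x := (rho (ph x) ((0 : FreeLieAlgebra k S), (1 : k))).1
  map_add' x y := by rw [map_add, map_add, LinearMap.add_apply, Prod.fst_add]
  map_smul' c x := by
    rw [map_smul, map_smul, LinearMap.smul_apply, Prod.smul_fst]; rfl

theorem rho_one (x : FreeLieAlgebra k S) :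
    rho (ph x) ((0 : FreeLieAlgebra k S), (1 : k)) = (dyn k S x, 0) :=
  Prod.ext rfl (auxP_mem x).2

theorem dyn_of (s : S) : dyn k S (FreeLieAlgebra.of k s) = FreeLieAlgebra.of k s := by
  have h := rho_one (k := k) (FreeLieAlgebra.of k s)
  rw [rho_ph_of, opr_apply] at h
  have := congrArg Prod.fst h
  simpa using this.symm

theorem dyn_lie (x y : FreeLieAlgebra k S) :
    dyn k S ⁅x, y⁆ = ⁅dyn k S x, y⁆ + ⁅x, dyn k S y⁆ := by
  have h := rho_one (k := k) ⁅x, y⁆
  rw [rho_ph_lie, rho_one, rho_one, (auxP_mem x).1, (auxP_mem y).1] at h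
  have h2 := congrArg Prod.fst h
  simp only [Prod.fst_sub] at h2
  rw [← h2, ← lie_skew y (dyn k S x)]
  abel

variable (k S) in
/-- the sum of the eigenspaces of the Dynkin operator for positive integers -/
noncomputable def eigs : LieSubalgebra k (FreeLieAlgebra k S) where
  toSubmodule := ⨆ n : ℕ, Module.End.eigenspace (dyn k S) ((n : k) + 1)
  lie_mem' := by
    intro x y hx hy
    change ⁅x, y⁆ ∈ ⨆ n : ℕ, Module.End.eigenspace (dyn k S) ((n : k) + 1)
    change x ∈ ⨆ n : ℕ, Module.End.eigenspace (dyn k S) ((n : k) + 1) at hx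
    change y ∈ ⨆ n : ℕ, Module.End.eigenspace (dyn k S) ((n : k) + 1) at hy
    induction hx using Submodule.iSup_induction' with
    | mem i x hx =>
      induction hy using Submodule.iSup_induction' with
      | mem j y hy =>
        refine Submodule.mem_iSup_of_mem (i + j + 1) ?_
        rw [Module.End.mem_eigenspace_iff] at hx hy ⊢
        rw [dyn_lie, hx, hy, smul_lie, lie_smul, ← add_smul]
        congr 1
        push_cast
        ring
      | zero => rw [lie_zero]; exact zero_mem _
      | add y y' _ _ h h' => rw [lie_add]; exact add_mem h h'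
    | zero => rw [zero_lie]; exact zero_mem _
    | add x x' _ _ h h' => rw [add_lie]; exact add_mem h h'

theorem eigs_mem (x : FreeLieAlgebra k S) : x ∈ eigs k S := by
  refine mem_of_gen k S _ (fun s => ?_) x
  change FreeLieAlgebra.of k s ∈ ⨆ n : ℕ, Module.End.eigenspace (dyn k S) ((n : k) + 1)
  refine Submodule.mem_iSup_of_mem 0 ?_
  rw [Module.End.mem_eigenspace_iff, dyn_of]
  simp

theorem dyn_injective [CharZero k] (x : FreeLieAlgebra k S) (h : dyn k S x = 0) : x = 0 := by
  have h0 : x ∈ Module.End.eigenspace (dyn k S) 0 := by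
    rw [Module.End.mem_eigenspace_iff, h, zero_smul]
  have h1 : x ∈ ⨆ (μ : k) (_ : μ ≠ 0), Module.End.eigenspace (dyn k S) μ := by
    have h2 := eigs_mem x
    change x ∈ ⨆ n : ℕ, Module.End.eigenspace (dyn k S) ((n : k) + 1) at h2
    refine (iSup_le fun n => ?_ :
      (⨆ n : ℕ, Module.End.eigenspace (dyn k S) ((n : k) + 1)) ≤ _) h2
    refine le_iSup_of_le ((n : k) + 1) (le_iSup_of_le ?_ le_rfl)
    exact_mod_cast Nat.succ_ne_zero n
  have h3 := (Module.End.eigenspaces_iSupIndep (dyn k S)) 0
  exact (Submodule.disjoint_def.mp h3) x h0 h1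

end FL

theorem freeLie : FreeLieStatement.{u} := by
  intro k S _ _
  change Function.Injective (ph (k := k) (S := S))
  rw [injective_iff_map_eq_zero]
  intro x hx
  refine dyn_injective x ?_
  have h := rho_one (k := k) x
  rw [hx, map_zero] at h
  exact (congrArg Prod.fst h).symm

end Pool.Agent.A55u.H86
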